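import Pool.Agent.Helper5.DR.Defs

/-!
# Project DR (MP_a499ba_nt), block FT: the family `n^{-it}`, `t` uniform in `[U, U + H]`
-/

set_option autoImplicit false

namespace Pool.Agent.DR

open Finset MeasureTheory Filter Topology Pool.Agent.Helper5.RM Pool.Agent.Helper96.AF Pool.Agent.Helper66.LW Pool.Agent.IT

/-- the uniform law on `[U, U + H]` -/
noncomputable def UL (U H : ℝ) : Measure ℝ := ENNReal.ofReal (1 / H) • volume.restrict (Set.Icc U (U + H))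

lemma prob_UL (U : ℝ) {H : ℝ} (hH : 0 < H) : IsProbabilityMeasure (UL U H) := by
  constructor
  unfold UL
  rw [Measure.smul_apply, Measure.restrict_apply MeasurableSet.univ, Set.univ_inter, Real.volume_Icc, smul_eq_mul,
    ← ENNReal.ofReal_mul (by positivity), add_sub_cancel_left, one_div_mul_cancel hH.ne', ENNReal.ofReal_one]

lemma int_UL (U : ℝ) {H : ℝ} (hH : 0 < H) (f : ℝ → ℂ) : ∫ t, f t ∂(UL U H) = ((1 / H : ℝ) : ℂ) * ∫ t in U..(U + H), f t := by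
  unfold UL
  rw [integral_smul_measure, ENNReal.toReal_ofReal (by positivity), intervalIntegral.integral_of_le (by linarith),
    integral_Icc_eq_integral_Ioc, Complex.real_smul]

lemma intble_UL (U : ℝ) {H : ℝ} {f : ℝ → ℂ} (hf : Continuous f) : Integrable f (UL U H) := by
  unfold UL
  refine Integrable.smul_measure ?_ ENNReal.ofReal_ne_top
  exact (hf.integrableOn_Icc)

lemma cont_nit {n : ℕ} (hn : 1 ≤ n) : Continuous fun t : ℝ => nit t n := by
  have h2 : (fun t : ℝ => nit t n) = fun t : ℝ => Complex.exp (-(Complex.I * (t * Real.log n : ℝ))) := by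
    funext t
    exact nit_eq hn t
  rw [h2]
  fun_prop

lemma log_sub_ge {m n : ℕ} {Z : ℝ} (hm : 1 ≤ m) (hmZ : (m : ℝ) ≤ Z) (hn : 1 ≤ n) (hnZ : (n : ℝ) ≤ Z) (hmn : m ≠ n) :
    1 / Z ≤ |Real.log m - Real.log n| := by
  have key : ∀ a b : ℕ, 1 ≤ b → b < a → (a : ℝ) ≤ Z → 1 / Z ≤ Real.log a - Real.log b := by
    intro a b hb hba haZ
    have hb0 : (0 : ℝ) < b := by exact_mod_cast hb
    have ha0 : (0 : ℝ) < a := by exact_mod_cast (by omega : 0 < a)
    have h1 : (b : ℝ) + 1 ≤ a := by exact_mod_cast hba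
    have h2 := Real.log_le_sub_one_of_pos (show (0 : ℝ) < b / a by positivity)
    rw [Real.log_div hb0.ne' ha0.ne'] at h2
    have h3 : (b : ℝ) / a - 1 ≤ -(1 / a) := by
      rw [div_sub_one ha0.ne', ← neg_div, div_le_div_iff_of_pos_right ha0]
      linarith
    have h4 : 1 / Z ≤ 1 / (a : ℝ) := one_div_le_one_div_of_le ha0 haZ
    linarith
  rcases lt_or_gt_of_ne hmn with h | h
  · have h1 := key n m hm h hnZ
    rw [abs_sub_comm]
    exact h1.trans (le_abs_self _)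
  · have h1 := key m n hn h hmZ
    exact h1.trans (le_abs_self _)

lemma corr_self {n : ℕ} (hn : 1 ≤ n) (t : ℝ) : nit t n * (starRingEnd ℂ) (nit t n) = 1 := by
  rw [Complex.mul_conj, Complex.normSq_eq_norm_sq, norm_nit hn]
  simp

/-- the correlations -/
lemma corr_le (U : ℝ) {H Z : ℝ} (hH : 0 < H) {m n : ℕ} (hm : 1 ≤ m) (hmZ : (m : ℝ) ≤ Z) (hn : 1 ≤ n) (hnZ : (n : ℝ) ≤ Z)
    (hmn : m ≠ n) : ‖∫ t, nit t m * (starRingEnd ℂ) (nit t n) ∂(UL U H)‖ ≤ 2 * Z / H := by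
  have hZ : 0 < Z := lt_of_lt_of_le (by exact_mod_cast hm : (0 : ℝ) < m) hmZ
  have h1 := log_sub_ge hm hmZ hn hnZ hmn
  set θ := Real.log m - Real.log n with hθ
  have h2 : 0 < |θ| := lt_of_lt_of_le (by positivity) h1
  have h3 : ∀ t : ℝ, nit t m * (starRingEnd ℂ) (nit t n) = Complex.exp ((-(Complex.I * θ)) * t) := by
    intro t
    rw [nit_eq hm, nit_eq hn, ← Complex.exp_conj, ← Complex.exp_add]
    congr 1
    simp only [map_neg, map_mul, Complex.conj_I, Complex.conj_ofReal]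
    rw [hθ]
    push_cast
    ring
  have hc : (-(Complex.I * θ) : ℂ) ≠ 0 := by
    have : (θ : ℂ) ≠ 0 := by
      exact_mod_cast abs_pos.1 h2
    simpa using this
  rw [int_UL U hH]
  simp_rw [h3]
  rw [integral_exp_mul_complex hc, norm_mul, norm_div, Complex.norm_real, Real.norm_eq_abs, abs_of_pos (by positivity : 0 < 1 / H)]
  have h4 : ∀ s : ℝ, ‖Complex.exp (-(Complex.I * θ) * s)‖ = 1 := by
    intro s
    rw [show -(Complex.I * (θ : ℂ)) * s = ((-(θ * s) : ℝ) : ℂ) * Complex.I by push_cast; ring, Complex.norm_exp_ofReal_mul_I]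
  have h5 : ‖Complex.exp (-(Complex.I * θ) * ((U + H : ℝ) : ℂ)) - Complex.exp (-(Complex.I * θ) * (U : ℂ))‖ ≤ 2 := by
    refine (norm_sub_le _ _).trans ?_
    rw [h4, h4]
    norm_num
  have h6 : ‖(-(Complex.I * θ) : ℂ)‖ = |θ| := by
    rw [norm_neg, norm_mul, Complex.norm_I, one_mul, Complex.norm_real, Real.norm_eq_abs]
  rw [h6]
  calc 1 / H * (‖Complex.exp (-(Complex.I * θ) * ((U + H : ℝ) : ℂ)) - Complex.exp (-(Complex.I * θ) * (U : ℂ))‖ / |θ|) ≤
        1 / H * (2 / (1 / Z)) := by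
        apply mul_le_mul_of_nonneg_left _ (by positivity)
        exact div_le_div₀ (by norm_num) h5 (by positivity) h1
    _ = 2 * Z / H := by field_simp

lemma norm_gt {T1 T2 : Finset ℕ} {n : ℕ} (hn : 1 ≤ n) : ‖gt T1 T2 n‖ = 1 := by
  unfold gt
  rw [if_neg (by omega), norm_prod]
  refine Finset.prod_eq_one fun p _ => ?_
  rw [norm_pow, norm_mul, Complex.norm_real, Real.norm_eq_abs, abs_sg, one_mul]
  split_ifs <;> simp

/-- the mean square -/
lemma ms_nit (U : ℝ) {H : ℝ} (hH : 0 < H) {γ : ℕ → ℂ} {c : ℝ} (hc : 0 ≤ c) (hγ : ∀ n : ℕ, 1 ≤ n → ‖γ n‖ ≤ c / Real.sqrt n) {N : ℕ}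
    (hN : 1 ≤ N) (hNH : 2 * (N : ℝ) ^ 3 ≤ H) : ∫ t, ‖∑ n ∈ Finset.Icc 1 N, γ n * nit t n‖ ^ 2 ∂(UL U H) ≤ c ^ 2 * (2 + Real.log N) := by
  have hN1 : (1 : ℝ) ≤ N := by exact_mod_cast hN
  have h1 : ∀ t : ℝ, ((‖∑ n ∈ Finset.Icc 1 N, γ n * nit t n‖ ^ 2 : ℝ) : ℂ) =
      ∑ m ∈ Finset.Icc 1 N, ∑ n ∈ Finset.Icc 1 N, (γ m * (starRingEnd ℂ) (γ n)) * (nit t m * (starRingEnd ℂ) (nit t n)) := by
    intro t
    rw [← Complex.normSq_eq_norm_sq, ← Complex.mul_conj, map_sum, Finset.sum_mul_sum]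
    refine Finset.sum_congr rfl fun m _ => Finset.sum_congr rfl fun n _ => ?_
    rw [map_mul]
    ring
  have hcont : ∀ m ∈ Finset.Icc 1 N, ∀ n ∈ Finset.Icc 1 N,
      Continuous fun t : ℝ => (γ m * (starRingEnd ℂ) (γ n)) * (nit t m * (starRingEnd ℂ) (nit t n)) := by
    intro m hm n hn
    exact continuous_const.mul ((cont_nit (Finset.mem_Icc.1 hm).1).mul (Complex.continuous_conj.comp (cont_nit (Finset.mem_Icc.1 hn).1)))
  have h2 : ((∫ t, ‖∑ n ∈ Finset.Icc 1 N, γ n * nit t n‖ ^ 2 ∂(UL U H) : ℝ) : ℂ) =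
      ∑ m ∈ Finset.Icc 1 N, ∑ n ∈ Finset.Icc 1 N, (γ m * (starRingEnd ℂ) (γ n)) * ∫ t, nit t m * (starRingEnd ℂ) (nit t n) ∂(UL U H) := by
    rw [← integral_complex_ofReal]
    simp_rw [h1]
    rw [integral_finsetSum _ fun m hm => integrable_finsetSum _ fun n hn => intble_UL U (hcont m hm n hn)]
    refine Finset.sum_congr rfl fun m hm => ?_
    rw [integral_finsetSum _ fun n hn => intble_UL U (hcont m hm n hn)]
    refine Finset.sum_congr rfl fun n _ => ?_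
    rw [integral_const_mul]
  have hp : IsProbabilityMeasure (UL U H) := prob_UL U hH
  have h4 : ‖((∫ t, ‖∑ n ∈ Finset.Icc 1 N, γ n * nit t n‖ ^ 2 ∂(UL U H) : ℝ) : ℂ)‖ ≤
      ∑ m ∈ Finset.Icc 1 N, ∑ n ∈ Finset.Icc 1 N, ((if m = n then c ^ 2 * (1 / (m : ℝ)) else 0) + c ^ 2 * (2 * N / H)) := by
    rw [h2]
    refine (norm_sum_le _ _).trans (Finset.sum_le_sum fun m hm => (norm_sum_le _ _).trans (Finset.sum_le_sum fun n hn => ?_))
    obtain ⟨hm1, hm2⟩ := Finset.mem_Icc.1 hm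
    obtain ⟨hn1, hn2⟩ := Finset.mem_Icc.1 hn
    have hm0 : (1 : ℝ) ≤ m := by exact_mod_cast hm1
    have hn0 : (1 : ℝ) ≤ n := by exact_mod_cast hn1
    have hγ1 : ∀ k : ℕ, 1 ≤ k → ‖γ k‖ ≤ c := fun k hk => (hγ k hk).trans (div_le_self hc (by
      rw [Real.one_le_sqrt]; exact_mod_cast hk))
    rw [norm_mul, norm_mul, RCLike.norm_conj]
    split_ifs with hmn
    · subst hmn
      have h5 : ∫ t, nit t m * (starRingEnd ℂ) (nit t m) ∂(UL U H) = 1 := by
        simp_rw [corr_self hm1]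
        simp
      rw [h5, norm_one, mul_one]
      have h6 : ‖γ m‖ * ‖γ m‖ ≤ c ^ 2 * (1 / (m : ℝ)) := by
        have h7 := mul_le_mul (hγ m hm1) (hγ m hm1) (norm_nonneg _) (by positivity)
        refine h7.trans (le_of_eq ?_)
        rw [div_mul_div_comm, Real.mul_self_sqrt (by linarith)]
        ring
      have h8 : 0 ≤ c ^ 2 * (2 * (N : ℝ) / H) := by positivity
      linarith
    · rw [zero_add]
      have h5 := corr_le U hH (Z := N) hm1 (by exact_mod_cast hm2) hn1 (by exact_mod_cast hn2) hmn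
      have h6 : ‖γ m‖ * ‖γ n‖ ≤ c ^ 2 := by
        rw [sq]
        exact mul_le_mul (hγ1 m hm1) (hγ1 n hn1) (norm_nonneg _) hc
      exact mul_le_mul h6 h5 (norm_nonneg _) (by positivity)
  have h5 : ∫ t, ‖∑ n ∈ Finset.Icc 1 N, γ n * nit t n‖ ^ 2 ∂(UL U H) ≤
      ‖((∫ t, ‖∑ n ∈ Finset.Icc 1 N, γ n * nit t n‖ ^ 2 ∂(UL U H) : ℝ) : ℂ)‖ := by
    rw [Complex.norm_real]
    exact le_abs_self _
  refine h5.trans (h4.trans ?_)
  have h6 : ∀ m ∈ Finset.Icc 1 N, ∑ n ∈ Finset.Icc 1 N, ((if m = n then c ^ 2 * (1 / (m : ℝ)) else 0) + c ^ 2 * (2 * N / H)) =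
      c ^ 2 * (m : ℝ)⁻¹ + N * (c ^ 2 * (2 * N / H)) := by
    intro m hm
    rw [Finset.sum_add_distrib, Finset.sum_ite_eq, if_pos hm, Finset.sum_const, nsmul_eq_mul, Nat.card_Icc, Nat.add_sub_cancel, one_div]
  rw [Finset.sum_congr rfl h6, Finset.sum_add_distrib, ← Finset.mul_sum, Finset.sum_const, nsmul_eq_mul, Nat.card_Icc, Nat.add_sub_cancel]
  have h7 : ∑ m ∈ Finset.Icc 1 N, (m : ℝ)⁻¹ ≤ 1 + Real.log N := by
    have h8 := harmonic_le_one_add_log N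
    rw [harmonic_eq_sum_Icc] at h8
    push_cast at h8
    exact h8
  have h8 : (N : ℝ) * (N * (c ^ 2 * (2 * N / H))) ≤ c ^ 2 := by
    have h9 : (N : ℝ) * (N * (c ^ 2 * (2 * N / H))) = c ^ 2 * (2 * (N : ℝ) ^ 3 / H) := by ring
    rw [h9]
    have h10 : 2 * (N : ℝ) ^ 3 / H ≤ 1 := by rw [div_le_one hH]; exact hNH
    have h11 : 0 ≤ c ^ 2 := by positivity
    nlinarith
  have h9 : c ^ 2 * ∑ m ∈ Finset.Icc 1 N, (m : ℝ)⁻¹ ≤ c ^ 2 * (1 + Real.log N) := mul_le_mul_of_nonneg_left h7 (by positivity)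
  nlinarith

/-- block FT -/
theorem fam_t (U : ℝ) {H : ℝ} {Z : ℕ} (hZ : 1 ≤ Z) (hH : 2 * (Z : ℝ) ^ 2 ≤ H) : Fam (UL U H) nit Z Set.univ := by
  have hZ1 : (1 : ℝ) ≤ Z := by exact_mod_cast hZ
  have hH0 : 0 < H := by nlinarith
  refine ⟨prob_UL U hH0, fun n => ?_, fun t => nit_one t, fun t m n => nit_mul t m n, fun t n hn _ => norm_nit hn t, Set.mem_univ _, ?_, ?_⟩
  · unfold nit
    fun_prop
  · intro T1 T2 _ m n hm hmZ hn hnZ
    by_cases hmn : m = n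
    · subst hmn
      have h1 : gt T1 T2 m * (starRingEnd ℂ) (gt T1 T2 m) = 1 := by
        rw [Complex.mul_conj, Complex.normSq_eq_norm_sq, norm_gt hm]
        simp
      rw [h1, sub_self, mul_zero, norm_zero]
      positivity
    · rw [norm_mul]
      have h1 := corr_le U hH0 (Z := Z) hm (by exact_mod_cast hmZ) hn (by exact_mod_cast hnZ) hmn
      have h2 : ‖gt T1 T2 m * (starRingEnd ℂ) (gt T1 T2 n) - 1‖ ≤ 2 := by
        refine (norm_sub_le _ _).trans ?_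
        rw [norm_mul, RCLike.norm_conj, norm_gt hm, norm_gt hn]
        norm_num
      refine (mul_le_mul h1 h2 (norm_nonneg _) (by positivity)).trans ?_
      rw [div_mul_eq_mul_div, div_le_div_iff₀ hH0 (by linarith)]
      nlinarith
  · intro γ c hc hγ N hN hNZ
    have h1 : (N : ℝ) ^ 3 ≤ Z := by exact_mod_cast hNZ
    refine (ms_nit U hH0 hc hγ hN (by nlinarith)).trans ?_
    have h2 : 0 ≤ Real.log N := Real.log_natCast_nonneg N
    refine mul_le_mul_of_nonneg_left ?_ (by positivity)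
    have h3 : 1 ≤ 2 + Real.log N := by linarith
    calc 2 + Real.log N = (2 + Real.log N) ^ 1 := (pow_one _).symm
      _ ≤ (2 + Real.log N) ^ 4 := pow_le_pow_right₀ h3 (by norm_num)

end Pool.Agent.DR
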