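import Pool.Agent.Helper11.Q3.Stmts

/-!
# Project DR, part A1, block J3c: the sums of `k^(-1/2)` over the `k` composed of the primes of `q` are bounded for most `q`
-/

set_option autoImplicit false

namespace Pool.Agent.Helper56.DR

open Finset Pool.Agent.Helper5.RM Pool.Agent.Helper11.Q3

/-- `n ↦ 1/√n` -/
noncomputable def isq : ℕ →* ℝ where
  toFun n := 1 / Real.sqrt n
  map_one' := by simp
  map_mul' m n := by
    rw [Nat.cast_mul, Real.sqrt_mul (Nat.cast_nonneg m), one_div_mul_one_div]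

/-- the sum of `p^(-1/2)` over the primes of `q` -/
noncomputable def Wq (q : ℕ) : ℝ := ∑ p ∈ q.primeFactors, 1 / Real.sqrt p

lemma Wq_nonneg (q : ℕ) : 0 ≤ Wq q := Finset.sum_nonneg fun _ _ => by positivity

lemma local_le {x : ℝ} (hx0 : 0 ≤ x) (hx : x ≤ 2 / 3) : (1 - x)⁻¹ ≤ Real.exp (3 * x) := by
  have h1 : 0 < 1 - x := by linarith
  have h2 : (1 - x)⁻¹ = x / (1 - x) + 1 := by field_simp; ring
  have h3 : x / (1 - x) ≤ 3 * x := by
    rw [div_le_iff₀ h1]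
    nlinarith
  rw [h2]
  exact (Real.add_one_le_exp _).trans (Real.exp_le_exp.2 h3)

lemma sm_bound {q : ℕ} (hq : Odd q) (N : ℕ) :
    ∑ k ∈ (Icc 1 N).filter (fun k : ℕ => ∀ p ∈ k.primeFactors, p ∣ q), 1 / Real.sqrt k ≤ Real.exp (3 * Wq q) := by
  have hq0 : q ≠ 0 := by
    rintro rfl
    exact absurd hq (by decide)
  have hp3 : ∀ p ∈ q.primeFactors, 3 ≤ p := by
    intro p hp
    have h1 := (Nat.prime_of_mem_primeFactors hp).two_le
    have h2 : p ≠ 2 := by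
      rintro rfl
      exact (Nat.not_even_iff_odd.2 hq) (even_iff_two_dvd.2 (Nat.dvd_of_mem_primeFactors hp))
    omega
  have hx : ∀ p ∈ q.primeFactors, 1 / Real.sqrt (p : ℝ) ≤ 2 / 3 := by
    intro p hp
    have h1 : (3 : ℝ) ≤ p := by exact_mod_cast hp3 p hp
    have h2 : 3 / 2 ≤ Real.sqrt (p : ℝ) := by
      apply Real.le_sqrt_of_sq_le
      norm_num
      linarith
    rw [div_le_div_iff₀ (by linarith) (by norm_num)]
    linarith
  have hlt : ∀ {p : ℕ}, p.Prime → ‖isq p‖ < 1 := by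
    intro p hp
    have h1 : (1 : ℝ) < p := by exact_mod_cast hp.one_lt
    have h2 : 1 < Real.sqrt (p : ℝ) := by
      rw [show (1 : ℝ) = Real.sqrt 1 by simp]
      exact Real.sqrt_lt_sqrt (by norm_num) (by simpa using h1)
    show ‖1 / Real.sqrt (p : ℝ)‖ < 1
    rw [Real.norm_eq_abs, abs_of_pos (by positivity), div_lt_one (by linarith)]
    exact h2
  obtain ⟨hs, ht⟩ := EulerProduct.summable_and_hasSum_factoredNumbers_prod_filter_prime_geometric hlt q.primeFactors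
  have hfil : q.primeFactors.filter Nat.Prime = q.primeFactors :=
    Finset.filter_true_of_mem fun p hp => Nat.prime_of_mem_primeFactors hp
  rw [hfil] at ht
  -- the finite sum is at most the total sum
  have h1 : ∑ k ∈ (Icc 1 N).filter (fun k : ℕ => ∀ p ∈ k.primeFactors, p ∣ q), 1 / Real.sqrt (k : ℝ) ≤
      ∏ p ∈ q.primeFactors, (1 - isq p)⁻¹ := by
    have h2 : ∀ k ∈ (Icc 1 N).filter (fun k : ℕ => ∀ p ∈ k.primeFactors, p ∣ q), k ∈ Nat.factoredNumbers q.primeFactors := by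
      intro k hk
      obtain ⟨hk1, hk2⟩ := Finset.mem_filter.1 hk
      refine Nat.mem_factoredNumbers_of_primeFactors_subset (by have := (Finset.mem_Icc.1 hk1).1; omega) fun p hp => ?_
      exact Nat.mem_primeFactors.2 ⟨Nat.prime_of_mem_primeFactors hp, hk2 p hp, hq0⟩
    have h3 : ∑ k ∈ (Icc 1 N).filter (fun k : ℕ => ∀ p ∈ k.primeFactors, p ∣ q), 1 / Real.sqrt (k : ℝ) =
        ∑ k ∈ ((Icc 1 N).filter (fun k : ℕ => ∀ p ∈ k.primeFactors, p ∣ q)).attach.map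
          ⟨fun k => (⟨k.1, h2 k.1 k.2⟩ : Nat.factoredNumbers q.primeFactors), fun a b hab => by
            have := congrArg Subtype.val hab
            exact Subtype.ext this⟩, isq (k : ℕ) := by
      rw [Finset.sum_map, ← Finset.sum_attach]
      rfl
    rw [h3]
    exact sum_le_hasSum _ (fun k _ => by show 0 ≤ 1 / Real.sqrt (((k : ℕ) : ℕ) : ℝ); positivity) ht
  refine h1.trans ?_
  unfold Wq
  rw [Finset.mul_sum, Real.exp_sum]
  refine Finset.prod_le_prod (fun p hp => ?_) fun p hp => ?_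
  · have h4 : isq p ≤ 2 / 3 := hx p hp
    exact inv_nonneg.2 (by linarith)
  · exact local_le (by show 0 ≤ 1 / Real.sqrt (p : ℝ); positivity) (hx p hp)

/-- the sums of `1/(n √n)` are bounded -/
lemma sum32 : ∃ D : ℝ, 0 < D ∧ ∀ Q : ℕ, ∑ n ∈ Icc 1 Q, 1 / Real.sqrt n * (1 / (n : ℝ)) ≤ D := by
  have hs : Summable fun n : ℕ => 1 / (n : ℝ) ^ (3 / 2 : ℝ) := Real.summable_one_div_nat_rpow.2 (by norm_num)
  refine ⟨∑' n : ℕ, 1 / (n : ℝ) ^ (3 / 2 : ℝ) + 1, ?_, fun Q => ?_⟩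
  · have : 0 ≤ ∑' n : ℕ, 1 / (n : ℝ) ^ (3 / 2 : ℝ) := tsum_nonneg fun _ => by positivity
    linarith
  · have h1 : ∑ n ∈ Icc 1 Q, 1 / Real.sqrt n * (1 / (n : ℝ)) = ∑ n ∈ Icc 1 Q, 1 / (n : ℝ) ^ (3 / 2 : ℝ) := by
      refine Finset.sum_congr rfl fun n hn => ?_
      have hn0 : (0 : ℝ) < n := by exact_mod_cast (Finset.mem_Icc.1 hn).1
      rw [one_div_mul_one_div, show (3 / 2 : ℝ) = 1 / 2 + 1 by norm_num, Real.rpow_add hn0, Real.rpow_one, Real.sqrt_eq_rpow]
    rw [h1]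
    have h2 := hs.sum_le_tsum (Icc 1 Q) fun n _ => by positivity
    linarith

lemma sum_Wq : ∃ D : ℝ, 0 < D ∧ ∀ Q : ℕ, ∑ q ∈ OS Q, Wq q ≤ D * Q := by
  classical
  obtain ⟨D, hD0, hD⟩ := sum32
  refine ⟨D, hD0, fun Q => ?_⟩
  have h1 : ∀ q ∈ OS Q, Wq q = ∑ p ∈ Icc 1 Q, if p ∈ q.primeFactors then 1 / Real.sqrt (p : ℝ) else 0 := by
    intro q hq
    unfold Wq
    rw [← Finset.sum_filter]
    refine Finset.sum_congr ?_ fun _ _ => rfl
    ext p
    simp only [Finset.mem_filter]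
    constructor
    · intro hp
      refine ⟨Finset.mem_Icc.2 ⟨(Nat.prime_of_mem_primeFactors hp).one_lt.le, ?_⟩, hp⟩
      have hq1 : 1 ≤ q ∧ q ≤ Q := Finset.mem_Icc.1 (Finset.mem_filter.1 hq).1
      exact (Nat.le_of_dvd (by omega) (Nat.dvd_of_mem_primeFactors hp)).trans hq1.2
    · exact fun h => h.2
  rw [Finset.sum_congr rfl h1, Finset.sum_comm]
  have h2 : ∀ p ∈ Icc 1 Q, ∑ q ∈ OS Q, (if p ∈ q.primeFactors then 1 / Real.sqrt (p : ℝ) else 0) ≤
      (1 / Real.sqrt (p : ℝ) * (1 / (p : ℝ))) * Q := by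
    intro p hp
    rw [← Finset.sum_filter, Finset.sum_const, nsmul_eq_mul]
    have hp1 : 1 ≤ p := (Finset.mem_Icc.1 hp).1
    have hp0 : (0 : ℝ) < p := by exact_mod_cast hp1
    have h3 : ((OS Q).filter (fun q => p ∈ q.primeFactors)).card ≤ Q / p := by
      have h4 : (OS Q).filter (fun q => p ∈ q.primeFactors) ⊆ (Finset.Ioc 0 Q).filter (fun q => p ∣ q) := by
        intro q hq
        obtain ⟨a, b⟩ := Finset.mem_filter.1 hq
        have hq1 : 1 ≤ q ∧ q ≤ Q := Finset.mem_Icc.1 (Finset.mem_filter.1 a).1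
        exact Finset.mem_filter.2 ⟨Finset.mem_Ioc.2 ⟨by omega, hq1.2⟩, Nat.dvd_of_mem_primeFactors b⟩
      refine (Finset.card_le_card h4).trans ?_
      rw [Nat.Ioc_filter_dvd_card_eq_div]
    have h5 : (((OS Q).filter (fun q => p ∈ q.primeFactors)).card : ℝ) ≤ Q / p := by
      refine le_trans (by exact_mod_cast h3) (Nat.cast_div_le)
    calc (((OS Q).filter (fun q => p ∈ q.primeFactors)).card : ℝ) * (1 / Real.sqrt (p : ℝ)) ≤ (Q / p) * (1 / Real.sqrt (p : ℝ)) :=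
          mul_le_mul_of_nonneg_right h5 (by positivity)
      _ = _ := by ring
  refine (Finset.sum_le_sum h2).trans ?_
  rw [← Finset.sum_mul]
  exact mul_le_mul_of_nonneg_right (hD Q) (Nat.cast_nonneg Q)

open Classical in
theorem j3c (h : StmtJ1d) : StmtJ3c := by
  intro ε hε
  obtain ⟨D, hD0, hD⟩ := sum_Wq
  refine ⟨Real.exp (3 * (8 * D / ε)), Real.exp_pos _, fun Q => ?_⟩
  set B := (OS Q).filter fun q => ¬ Sm (Real.exp (3 * (8 * D / ε))) q with hB
  have h1 : ∀ q ∈ B, 8 * D / ε ≤ Wq q := by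
    intro q hq
    obtain ⟨a, b⟩ := Finset.mem_filter.1 hq
    by_contra hlt
    push Not at hlt
    apply b
    intro N
    refine (sm_bound (Finset.mem_filter.1 a).2.1 N).trans (Real.exp_le_exp.2 ?_)
    linarith
  have h2 : (B.card : ℝ) * (8 * D / ε) ≤ D * Q := by
    calc (B.card : ℝ) * (8 * D / ε) = ∑ _q ∈ B, 8 * D / ε := by rw [Finset.sum_const, nsmul_eq_mul]
      _ ≤ ∑ q ∈ B, Wq q := Finset.sum_le_sum h1
      _ ≤ ∑ q ∈ OS Q, Wq q := Finset.sum_le_sum_of_subset_of_nonneg (Finset.filter_subset _ _) fun q _ _ => Wq_nonneg q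
      _ ≤ D * Q := hD Q
  have h3 := h Q
  have h4 : (B.card : ℝ) * 8 ≤ ε * Q := by
    have h5 : (B.card : ℝ) * (8 * D / ε) * ε = (B.card : ℝ) * 8 * D := by field_simp
    have h6 : (B.card : ℝ) * 8 * D ≤ (ε * Q) * D := by
      rw [← h5]
      calc (B.card : ℝ) * (8 * D / ε) * ε ≤ D * Q * ε := mul_le_mul_of_nonneg_right h2 hε.le
        _ = _ := by ring
    exact le_of_mul_le_mul_right h6 hD0
  nlinarith

end Pool.Agent.Helper56.DR
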