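import Pool.Agent.Helper56.DR.FT

/-!
# Project DR (MP_a499ba_nt), block KLL: imaginary twists, `(log log H)^{1/4-δ}`, from the transfer theorem
-/

set_option autoImplicit false

namespace Pool.Agent.DR

open Finset MeasureTheory Filter Topology Pool.Agent.Helper5.RM Pool.Agent.Helper96.AF Pool.Agent.Helper66.LW Pool.Agent.IT

private theorem ll_tendsto56 : Tendsto (fun T : ℝ => Real.log (Real.log T)) atTop atTop :=
  Real.tendsto_log_atTop.comp Real.tendsto_log_atTop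

/-- block KLL -/
theorem kLL {a : ℕ → ℂ} (hTR : StmtTR a) : StmtKLL a := by
  intro δ η hδ hη
  obtain ⟨r0, h0⟩ := hTR (δ / 2) η (by positivity) hη
  have e1 : Tendsto (fun L : ℝ => L ^ (δ / 2)) atTop atTop := tendsto_rpow_atTop (by positivity)
  obtain ⟨H1, h1⟩ := Filter.eventually_atTop.1 ((ll_tendsto56.eventually_ge_atTop (max 400 (200 * (r0 + 1)))).and
    ((e1.comp ll_tendsto56).eventually_ge_atTop 400))
  refine ⟨max H1 1, fun H hH U => ?_⟩
  have hH1 : 1 ≤ H := (le_max_right _ _).trans hH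
  have hHp : 0 < H := by linarith
  obtain ⟨k1, k2⟩ := h1 H ((le_max_left _ _).trans hH)
  simp only [Function.comp_apply] at k2
  set L := Real.log (Real.log H) with hL
  have hL400 : 400 ≤ L := (le_max_left _ _).trans k1
  have hLr : 200 * ((r0 : ℝ) + 1) ≤ L := (le_max_right _ _).trans k1
  set r : ℕ := ⌊L / 200⌋₊ with hr
  have hr1 : (r : ℝ) ≤ L / 200 := Nat.floor_le (by linarith)
  have hr2 : L / 200 < r + 1 := Nat.lt_floor_add_one _
  have hr0 : r0 ≤ r := Nat.le_floor (by linarith)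
  have hr3 : 1 ≤ r := Nat.le_floor (by push_cast; linarith)
  have hr4 : L / 400 ≤ r := by linarith
  have hrp : (0 : ℝ) < r := by exact_mod_cast (by omega : 0 < r)
  have hLp : 0 < L := by linarith
  -- the size of `Z`
  have hl2 := Real.log_two_lt_d9
  have hlogHp : 0 < Real.log H := by
    by_contra hcon
    push Not at hcon
    have : Real.log H = 0 := le_antisymm hcon (Real.log_nonneg hH1)
    rw [hL, this, Real.log_zero] at hL400
    linarith
  have hpow : (2 : ℝ) ^ (150 * r + 2) ≤ Real.log H := by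
    have q1 : Real.log ((2 : ℝ) ^ (150 * r + 2)) ≤ L := by
      rw [Real.log_pow]
      push_cast
      nlinarith
    exact (Real.log_le_log_iff (by positivity) hlogHp).1 q1
  have hZ : 2 * ((Y (150 * r) : ℕ) : ℝ) ^ 2 ≤ H := by
    have q1 : 2 * ((Y (150 * r) : ℕ) : ℝ) ^ 2 = 2 ^ (1 + 2 * 2 ^ (150 * r)) := by
      unfold Y
      push_cast
      rw [← pow_mul, pow_add, pow_one]
      ring
    have q2 : (1 + 2 * 2 ^ (150 * r) : ℕ) ≤ 2 ^ (150 * r + 2) := by
      have : 1 ≤ 2 ^ (150 * r) := Nat.one_le_two_pow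
      rw [pow_add]
      omega
    have q3 : (2 : ℝ) ^ (1 + 2 * 2 ^ (150 * r)) ≤ 2 ^ (2 ^ (150 * r + 2)) := pow_le_pow_right₀ (by norm_num) q2
    have q4 : (2 : ℝ) ^ (2 ^ (150 * r + 2)) ≤ H := by
      rw [← Real.log_le_log_iff (by positivity) hHp, Real.log_pow]
      push_cast
      have q5 : (2 : ℝ) ^ (150 * r + 2) * Real.log 2 ≤ 2 ^ (150 * r + 2) * 1 := mul_le_mul_of_nonneg_left (by linarith) (by positivity)
      linarith
    rw [q1]
    exact q3.trans q4
  have hZ1 : 1 ≤ Y (150 * r) := Y_pos _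
  have hYZ : Y (r + 1) ≤ Y (150 * r) := by
    unfold Y
    exact Nat.pow_le_pow_right (by norm_num) (Nat.pow_le_pow_right (by norm_num) (by omega))
  have hY : ((Y (r + 1) : ℕ) : ℝ) ≤ Real.sqrt H := by
    apply Real.le_sqrt_of_sq_le
    have q1 : ((Y (r + 1) : ℕ) : ℝ) ≤ ((Y (150 * r) : ℕ) : ℝ) := by exact_mod_cast hYZ
    have q2 : (0 : ℝ) ≤ ((Y (r + 1) : ℕ) : ℝ) := by positivity
    nlinarith
  have hexp : L ^ (1 / 4 - δ) ≤ (r : ℝ) ^ (1 / 4 - δ / 2) := by
    have q0 : L ^ (1 / 4 - δ / 2) = L ^ (1 / 4 - δ) * L ^ (δ / 2) := by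
      rw [← Real.rpow_add hLp]
      congr 1
      ring
    have q00 : 0 < L ^ (1 / 4 - δ) := Real.rpow_pos_of_pos hLp _
    rcases le_or_gt 0 (1 / 4 - δ / 2) with hd | hd
    · calc L ^ (1 / 4 - δ) ≤ L ^ (1 / 4 - δ / 2) / 400 := by
            rw [q0, le_div_iff₀ (by norm_num)]
            exact mul_le_mul_of_nonneg_left k2 q00.le
        _ ≤ L ^ (1 / 4 - δ / 2) / 400 ^ (1 / 4 - δ / 2) := by
            apply div_le_div_of_nonneg_left (Real.rpow_nonneg hLp.le _) (Real.rpow_pos_of_pos (by norm_num) _)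
            calc (400 : ℝ) ^ (1 / 4 - δ / 2) ≤ 400 ^ (1 : ℝ) := Real.rpow_le_rpow_of_exponent_le (by norm_num) (by linarith)
              _ = 400 := Real.rpow_one _
        _ = (L / 400) ^ (1 / 4 - δ / 2) := (Real.div_rpow hLp.le (by norm_num) _).symm
        _ ≤ (r : ℝ) ^ (1 / 4 - δ / 2) := Real.rpow_le_rpow (by positivity) hr4 hd
    · have hrL : (r : ℝ) ≤ L := by linarith
      calc L ^ (1 / 4 - δ) ≤ L ^ (1 / 4 - δ / 2) := Real.rpow_le_rpow_of_exponent_le (by linarith) (by linarith)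
        _ ≤ (r : ℝ) ^ (1 / 4 - δ / 2) := (Real.rpow_le_rpow_iff_of_neg hLp hrp hd).2 hrL
  have hfam := fam_t U hZ1 hZ
  have h2 := h0 r hr0 ℝ (UL U H) nit hfam
  set B : Set ℝ := {t | ∀ n : ℕ, 1 ≤ n → n ≤ Y (r + 1) → (Hc (fun n => a n * nit t n) n).re ≤ (r : ℝ) ^ (1 / 4 - δ / 2) * Real.sqrt n} with hB
  have hsub : {t : ℝ | U ≤ t ∧ t ≤ U + H ∧ ∀ n : ℕ, 1 ≤ n → (n : ℝ) ≤ Real.sqrt H → ‖Sw a t n‖ ≤ L ^ (1 / 4 - δ) * Real.sqrt n} ⊆
      B ∩ Set.Icc U (U + H) := by
    rintro t ⟨ht1, ht2, ht3⟩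
    refine ⟨fun n hn hnY => ?_, ht1, ht2⟩
    have q1 := ht3 n hn (le_trans (by exact_mod_cast hnY) hY)
    have q2 : Hc (fun n => a n * nit t n) n = Sw a t n := by
      unfold Hc Sw
      rw [Nat.floor_natCast]
    rw [q2]
    refine (Complex.re_le_norm _).trans (q1.trans ?_)
    exact mul_le_mul_of_nonneg_right hexp (Real.sqrt_nonneg _)
  refine (measure_mono hsub).trans ?_
  have hprob : IsProbabilityMeasure (UL U H) := prob_UL U hHp
  have h3 : (UL U H) B ≤ ENNReal.ofReal η := by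
    rw [← ENNReal.ofReal_toReal (measure_ne_top (UL U H) B)]
    exact ENNReal.ofReal_le_ofReal h2
  have h4 : (UL U H) B = ENNReal.ofReal (1 / H) * volume (B ∩ Set.Icc U (U + H)) := by
    unfold UL
    rw [Measure.smul_apply, Measure.restrict_apply' measurableSet_Icc, smul_eq_mul]
  have h5 : volume (B ∩ Set.Icc U (U + H)) = ENNReal.ofReal H * (UL U H) B := by
    rw [h4, ← mul_assoc, ← ENNReal.ofReal_mul hHp.le, mul_one_div_cancel hHp.ne', ENNReal.ofReal_one, one_mul]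
  rw [h5]
  calc ENNReal.ofReal H * (UL U H) B ≤ ENNReal.ofReal H * ENNReal.ofReal η := by gcongr
    _ = ENNReal.ofReal (η * H) := by rw [← ENNReal.ofReal_mul hHp.le, mul_comm]

end Pool.Agent.DR
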