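import Pool.Agent.Helper5.DR.Defs
import Pool.Agent.Helper56.IT.Near

/-!
# Project DR (MP_a499ba_nt): all `s` close to `t` at once, `log log H` instead of `log log log H`
-/

set_option autoImplicit false

namespace Pool.Agent.DR

open Finset MeasureTheory Filter Topology Pool.Agent.Helper5.RM Pool.Agent.Helper96.AF Pool.Agent.Helper66.LW Pool.Agent.IT

/-- for all `t` in `[U, U + H]` outside a set of measure `≤ η H`, all `s` within `(log log H)^{δ/2}` of `t` have the property -/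
def StmtNear2 (a : ℕ → ℂ) : Prop := ∀ (δ η : ℝ), 0 < δ → δ ≤ 1 / 4 → 0 < η → ∃ H0 : ℝ, ∀ H : ℝ, H0 ≤ H → ∀ U : ℝ,
  volume {t : ℝ | U ≤ t ∧ t ≤ U + H ∧ ¬ ∀ s : ℝ, |s - t| ≤ Real.log (Real.log H) ^ (δ / 2) →
    ExW a (Real.log (Real.log H) ^ (1 / 4 - δ)) s} ≤ ENNReal.ofReal (η * H)

private theorem lll_tendsto56 : Tendsto (fun T : ℝ => Real.log (Real.log T)) atTop atTop :=
  Real.tendsto_log_atTop.comp Real.tendsto_log_atTop

/-- the deterministic step -/
private theorem core56b {a : ℕ → ℂ} {C B s : ℝ} (hB : 0 ≤ B) (hs : DgW a C s) (hnot : ¬ ExW a B s) :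
    ∀ n : ℕ, 1 ≤ n → 2 * Real.pi * (n + 1) ≤ |s| → ‖Sw a s n‖ ≤ 2 * (3 * B + |C|) * Real.sqrt n := by
  intro n hn hsn
  unfold ExW at hnot
  push Not at hnot
  obtain ⟨φ, hx0⟩ := hnot
  obtain ⟨x, hx1, hx2, hx3⟩ := circle57 a hn hsn φ
  have hn1 : (1 : ℝ) ≤ n := by exact_mod_cast hn
  have h5 := hs φ _ hB hx0 x (hn1.trans hx1)
  rw [hx3] at h5
  have h6 : Real.sqrt x ≤ 2 * Real.sqrt n := by
    rw [show 2 * Real.sqrt n = Real.sqrt (4 * n) by
      rw [Real.sqrt_mul (by norm_num), show (4 : ℝ) = 2 ^ 2 by norm_num, Real.sqrt_sq (by norm_num)]]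
    exact Real.sqrt_le_sqrt (by linarith)
  have h7 : 3 * B + C ≤ 3 * B + |C| := by linarith [le_abs_self C]
  have h8 : 0 ≤ 3 * B + |C| := by positivity
  calc ‖Sw a s n‖ ≤ (3 * B + C) * Real.sqrt x := h5
    _ ≤ (3 * B + |C|) * Real.sqrt x := mul_le_mul_of_nonneg_right h7 (Real.sqrt_nonneg _)
    _ ≤ (3 * B + |C|) * (2 * Real.sqrt n) := mul_le_mul_of_nonneg_left h6 h8
    _ = _ := by ring

theorem stmtNear2_of {a : ℕ → ℂ} (hK : StmtKLL a) (hD : ∃ C : ℝ, ∀ t : ℝ, 10 ≤ |t| → DgW a C t) : StmtNear2 a := by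
  intro δ η hδ hδ4 hη
  have hpi := Real.pi_pos
  have hpi3 := Real.pi_gt_three
  obtain ⟨C, hC⟩ := hD
  obtain ⟨H1, h1⟩ := hK (δ / 4) (η / 2) (by positivity) (by positivity)
  have e0 : Tendsto (fun L : ℝ => L ^ (δ / 4)) atTop atTop := tendsto_rpow_atTop (by positivity)
  have e01 : ∀ᶠ H : ℝ in atTop, 6 * (3 + |C|) ≤ Real.log (Real.log H) ^ (δ / 4) :=
    (e0.comp lll_tendsto56).eventually_ge_atTop _
  obtain ⟨H2, h2⟩ := Filter.eventually_atTop.1 ((lll_tendsto56.eventually_ge_atTop 1).and e01)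
  have hlo : ∀ᶠ H : ℝ in atTop, 16 * Real.pi * (Real.sqrt H + 1) ≤ η / 2 * H := by
    set ε : ℝ := η / 2 / (16 * Real.pi) with hε
    have hε0 : 0 < ε := by positivity
    filter_upwards [eventually_ge_atTop ((2 / ε) ^ 2), eventually_ge_atTop 1] with H e3 e4
    have e5 : 2 / ε ≤ Real.sqrt H := Real.le_sqrt_of_sq_le e3
    have e6 : 1 ≤ Real.sqrt H := by rw [Real.one_le_sqrt]; exact e4
    rw [div_le_iff₀ hε0] at e5
    have e7 : Real.sqrt H * Real.sqrt H = H := Real.mul_self_sqrt (by linarith)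
    have e8 : Real.sqrt H + 1 ≤ ε * H := by
      calc Real.sqrt H + 1 ≤ 2 * Real.sqrt H := by linarith
        _ ≤ (Real.sqrt H * ε) * Real.sqrt H := mul_le_mul_of_nonneg_right e5 (by linarith)
        _ = ε * (Real.sqrt H * Real.sqrt H) := by ring
        _ = ε * H := by rw [e7]
    calc 16 * Real.pi * (Real.sqrt H + 1) ≤ 16 * Real.pi * (ε * H) := mul_le_mul_of_nonneg_left e8 (by positivity)
      _ = η / 2 * H := by rw [hε]; field_simp
  obtain ⟨H4, h4⟩ := Filter.eventually_atTop.1 hlo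
  refine ⟨max (max H1 H2) (max H4 (Real.exp (Real.exp 1))), fun H hH U => ?_⟩
  have hH1 : H1 ≤ H := ((le_max_left _ _).trans (le_max_left _ _)).trans hH
  have hH2 : H2 ≤ H := ((le_max_right _ _).trans (le_max_left _ _)).trans hH
  have hH4 : H4 ≤ H := ((le_max_left _ _).trans (le_max_right _ _)).trans hH
  have hH5 : Real.exp (Real.exp 1) ≤ H := ((le_max_right _ _).trans (le_max_right _ _)).trans hH
  have hHp : 0 < H := lt_of_lt_of_le (Real.exp_pos _) hH5
  have k1 := h1 H hH1 U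
  obtain ⟨k2, k3⟩ := h2 H hH2
  have k4 := h4 H hH4
  have hl1 : Real.exp 1 ≤ Real.log H := by
    rw [← Real.log_exp (Real.exp 1)]
    exact Real.log_le_log (Real.exp_pos _) hH5
  have hl2 : 1 ≤ Real.log (Real.log H) := by
    rw [← Real.log_exp 1]
    exact Real.log_le_log (Real.exp_pos _) hl1
  set L := Real.log (Real.log H) with hL
  have hLH : L ≤ Real.log H := by
    have q2 : Real.log (Real.log H) ≤ Real.log H - 1 :=
      Real.log_le_sub_one_of_pos (lt_of_lt_of_le (Real.exp_pos _) hl1)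
    linarith
  have hL0 : 0 < L := by linarith
  have hsq1 : Real.log H ≤ 2 * Real.sqrt H := by
    have q1 : Real.log (Real.sqrt H) ≤ Real.sqrt H - 1 := Real.log_le_sub_one_of_pos (Real.sqrt_pos.2 hHp)
    rw [Real.log_sqrt hHp.le] at q1
    linarith
  have hsq2 : 1 ≤ Real.sqrt H := by
    have q1 : (2 : ℝ) ≤ Real.log H := by
      refine le_trans ?_ hl1
      have := Real.add_one_le_exp (1 : ℝ)
      linarith
    linarith
  have hw : L ^ (δ / 2) ≤ 2 * Real.sqrt H := by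
    refine le_trans ?_ (hLH.trans hsq1)
    calc L ^ (δ / 2) ≤ L ^ (1 : ℝ) := Real.rpow_le_rpow_of_exponent_le k2 (by linarith)
      _ = L := Real.rpow_one L
  have hw1 : 1 ≤ L ^ (δ / 2) := Real.one_le_rpow k2 (by positivity)
  have hB1 : 1 ≤ L ^ (1 / 4 - δ) := Real.one_le_rpow k2 (by linarith)
  have hsub : {t : ℝ | U ≤ t ∧ t ≤ U + H ∧ ¬ ∀ s : ℝ, |s - t| ≤ L ^ (δ / 2) → ExW a (L ^ (1 / 4 - δ)) s} ⊆
      Set.Icc (-(4 * Real.pi * (Real.sqrt H + 1))) (4 * Real.pi * (Real.sqrt H + 1)) ∪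
      {t : ℝ | U ≤ t ∧ t ≤ U + H ∧ ∀ n : ℕ, 1 ≤ n → (n : ℝ) ≤ Real.sqrt H →
        ‖Sw a t n‖ ≤ L ^ (1 / 4 - δ / 4) * Real.sqrt n} := by
    rintro t ⟨ht, htT, hnot⟩
    by_cases hsm : |t| ≤ 4 * Real.pi * (Real.sqrt H + 1)
    · left
      exact Set.mem_Icc.2 (abs_le.1 hsm)
    · right
      push Not at hsm
      refine ⟨ht, htT, ?_⟩
      push Not at hnot
      obtain ⟨s, hst, hs⟩ := hnot
      have hs1 : 2 * Real.pi * (Real.sqrt H + 1) ≤ |s| := by
        have q1 : |t| - |s - t| ≤ |s| := by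
          have := abs_sub_abs_le_abs_sub t s
          rw [abs_sub_comm] at this
          linarith
        have q2 : 2 * Real.sqrt H ≤ 2 * Real.pi * (Real.sqrt H + 1) := by nlinarith
        linarith
      have hs10 : 10 ≤ |s| := by
        refine le_trans ?_ hs1
        nlinarith
      have q5 : ∀ n : ℕ, 1 ≤ n → (n : ℝ) ≤ Real.sqrt H →
          ‖Sw a s n‖ ≤ 2 * (3 * L ^ (1 / 4 - δ) + |C|) * Real.sqrt n := by
        intro n hn hnH
        refine core56b (by positivity) (hC s hs10) hs n hn ?_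
        refine le_trans ?_ hs1
        apply mul_le_mul_of_nonneg_left _ (by positivity)
        linarith
      intro n hn hnH
      refine (cmpN a (t := t) q5 n hn hnH).trans ?_
      apply mul_le_mul_of_nonneg_right _ (Real.sqrt_nonneg _)
      have q6 : 1 + 2 * |t - s| ≤ 3 * L ^ (δ / 2) := by
        rw [abs_sub_comm]
        linarith
      have q7 : 2 * (3 * L ^ (1 / 4 - δ) + |C|) ≤ 2 * (3 + |C|) * L ^ (1 / 4 - δ) := by
        nlinarith [abs_nonneg C]
      have q8 : 0 ≤ |C| := abs_nonneg C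
      calc (1 + 2 * |t - s|) * (2 * (3 * L ^ (1 / 4 - δ) + |C|)) ≤
            (3 * L ^ (δ / 2)) * (2 * (3 + |C|) * L ^ (1 / 4 - δ)) :=
            mul_le_mul q6 q7 (by positivity) (by positivity)
        _ = 6 * (3 + |C|) * (L ^ (δ / 2) * L ^ (1 / 4 - δ)) := by ring
        _ ≤ L ^ (δ / 4) * (L ^ (δ / 2) * L ^ (1 / 4 - δ)) := mul_le_mul_of_nonneg_right k3 (by positivity)
        _ = L ^ (1 / 4 - δ / 4) := by
            rw [← Real.rpow_add hL0, ← Real.rpow_add hL0]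
            congr 1
            ring
  refine (measure_mono hsub).trans ((measure_union_le _ _).trans ((add_le_add le_rfl k1).trans ?_))
  have hlogH : 0 ≤ Real.sqrt H := by linarith
  rw [Real.volume_Icc, ← ENNReal.ofReal_add (by nlinarith) (by positivity)]
  apply ENNReal.ofReal_le_ofReal
  nlinarith

end Pool.Agent.DR
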